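import Pool.Agent.H741.EL.Stm

/-!
# Project EL, part CD (helper356)
-/

set_option autoImplicit false
open MeasureTheory Metric Set Filter Topology

namespace Pool.Agent.H356.EL
open Pool.Agent.Y508 Pool.Agent.H741.EL

/-- quasi-concavity of the sine -/
theorem sin_ge {x y z : ℝ} (h0 : 0 ≤ x) (hxy : x ≤ y) (hyz : y ≤ z) (hz : z ≤ Real.pi) :
    min (Real.sin x) (Real.sin z) ≤ Real.sin y := by
  have hc : ConcaveOn ℝ (Icc 0 Real.pi) Real.sin := strictConcaveOn_sin_Icc.concaveOn
  exact hc.min_le_of_mem_Icc ⟨h0, (hxy.trans hyz).trans hz⟩ ⟨(h0.trans hxy).trans hyz, hz⟩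
    ⟨hxy, hyz⟩

theorem ip_w (θp η θ : ℝ) :
    ip (ev (θp + Real.pi / 2 - η)) θ = Real.sin (η + (θ - θp)) := by
  rw [ip_ev, ← Real.cos_sub_pi_div_two]
  congr 1
  ring

/-- the integral over a period -/
theorem cost {p : E2} {K : Set E2} {θp η : ℝ} (hη : 0 < η) (hη2 : η ≤ Real.pi / 4)
    (hz : ∀ θ ∈ Ioc θp (θp + Real.pi), ip p θ < hs K θ) :
    (∫ θ in (0 : ℝ)..(2 * Real.pi), if hs K θ = ip p θ then
      max (ip (ev (θp + Real.pi / 2 - η)) θ) 0 else 0) ≤ η * η := by
  have hpi := Real.pi_pos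
  set G : ℝ → ℝ := fun θ => if hs K θ = ip p θ then
      max (ip (ev (θp + Real.pi / 2 - η)) θ) 0 else 0 with hG
  have hper : Function.Periodic G (2 * Real.pi) := by
    intro θ
    simp only [hG, hs_two_pi, ip_two_pi]
  have h1 : ∫ θ in (0 : ℝ)..(2 * Real.pi), G θ =
      ∫ θ in (θp - Real.pi)..(θp + Real.pi), G θ := by
    have h := hper.intervalIntegral_add_eq 0 (θp - Real.pi)
    rw [zero_add, show θp - Real.pi + 2 * Real.pi = θp + Real.pi by ring] at h
    exact h
  change ∫ θ in (0 : ℝ)..(2 * Real.pi), G θ ≤ η * η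
  rw [h1, intervalIntegral.integral_of_le (by linarith)]
  have h2 : ∫ θ in Ioc (θp - Real.pi) (θp + Real.pi), (Ioc (θp - η) θp).indicator
      (fun _ => η) θ = η * η := by
    rw [integral_indicator measurableSet_Ioc, Measure.restrict_restrict measurableSet_Ioc,
      Set.inter_eq_left.2 (Ioc_subset_Ioc (by linarith) (by linarith)), setIntegral_const,
      Real.volume_real_Ioc_of_le (by linarith), smul_eq_mul]
    ring
  rw [← h2]
  refine integral_mono_of_nonneg (Eventually.of_forall fun θ => ?_) ?_ ?_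
  · show 0 ≤ G θ
    simp only [hG]
    split_ifs
    · exact le_max_right _ _
    · exact le_refl _
  · refine Integrable.indicator ?_ measurableSet_Ioc
    exact integrable_const _
  · refine (ae_restrict_iff' measurableSet_Ioc).2 (Eventually.of_forall fun θ hθ => ?_)
    show G θ ≤ (Ioc (θp - η) θp).indicator (fun _ => η) θ
    have hnn : 0 ≤ (Ioc (θp - η) θp).indicator (fun _ => η) θ :=
      indicator_nonneg (fun _ _ => hη.le) θ
    by_cases h3 : hs K θ = ip p θ
    · have hle : θ ≤ θp := by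
        by_contra hcon
        push Not at hcon
        exact (hz θ ⟨hcon, hθ.2⟩).ne h3.symm
      have e : G θ = max (Real.sin (η + (θ - θp))) 0 := by
        simp only [hG]
        rw [if_pos h3, ip_w]
      rw [e]
      by_cases h4 : θp - η < θ
      · rw [indicator_of_mem (show θ ∈ Ioc (θp - η) θp from ⟨h4, hle⟩)]
        refine max_le ?_ hη.le
        have h5 : Real.sin (η + (θ - θp)) ≤ η + (θ - θp) := Real.sin_le (by linarith)
        linarith
      · push Not at h4
        refine (max_le ?_ (le_refl _)).trans hnn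
        refine Real.sin_nonpos_of_nonpos_of_neg_pi_le (by linarith) ?_
        have := hθ.1
        linarith
    · have e : G θ = 0 := by
        simp only [hG]
        rw [if_neg h3]
      rw [e]
      exact hnn

/-- **CD** -/
theorem t_CD (h1 : S_ZZ) (_h2 : S_QQ) : S_CD := by
  intro a b p K θp β R s hC hp hs0 hsR hW hA hβ
  have hpi := Real.pi_pos
  have hR : 0 < R := hs0.trans hsR
  have hz := (h1 a b p K θp θp β hC hp hA).2 hβ
  -- the angle `φ₀`
  obtain ⟨φ₀, hφ⟩ : ∃ φ₀, φ₀ = Real.arccos (s / R) := ⟨_, rfl⟩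
  have hsR1 : s / R < 1 := (div_lt_one hR).2 hsR
  have hsR0 : 0 < s / R := div_pos hs0 hR
  have hφ0 : 0 < φ₀ := by
    rw [hφ]
    exact Real.arccos_pos.2 hsR1
  have hφ2 : φ₀ < Real.pi / 2 := by
    rw [hφ]
    exact Real.arccos_lt_pi_div_two.2 hsR0
  have hcos : Real.cos φ₀ = s / R := by
    rw [hφ]
    exact Real.cos_arccos (by linarith) hsR1.le
  have hnear : ∀ φ : ℝ, |φ| ≤ φ₀ → s ≤ R * Real.cos φ := by
    intro φ hφ'
    have h3 : Real.cos φ₀ ≤ Real.cos |φ| :=
      Real.cos_le_cos_of_nonneg_of_le_pi (abs_nonneg _) (by linarith) hφ'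
    rw [Real.cos_abs, hcos, div_le_iff₀ hR] at h3
    linarith
  -- the constants
  obtain ⟨l, hl⟩ : ∃ l, l = β - θp := ⟨_, rfl⟩
  have hl0 : 0 < l := by linarith
  have hlpi : l < Real.pi := by
    have := hA.h3
    linarith
  obtain ⟨m, hm⟩ : ∃ m, m = min (Real.sin φ₀) (Real.sin ((Real.pi + l) / 2)) := ⟨_, rfl⟩
  have hm0 : 0 < m := by
    rw [hm]
    exact lt_min (Real.sin_pos_of_pos_of_lt_pi hφ0 (by linarith))
      (Real.sin_pos_of_pos_of_lt_pi (by linarith) (by linarith))
  obtain ⟨c, hc⟩ : ∃ c, c = m / (2 * (s + R)) := ⟨_, rfl⟩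
  have hc0 : 0 < c := by
    rw [hc]
    positivity
  have hcm : c * (s + R) = m / 2 := by
    rw [hc]
    field_simp
  obtain ⟨D, hD⟩ : ∃ D, D = c * (W K - 2 * Real.pi * R) := ⟨_, rfl⟩
  have hD0 : 0 < D := by
    rw [hD]
    exact mul_pos hc0 (by linarith)
  obtain ⟨η, hη⟩ : ∃ η, η = min (min ((Real.pi - l) / 4) φ₀) (min (Real.pi / 4) (min 1 (D / 2))) :=
    ⟨_, rfl⟩
  have hη0 : 0 < η := by
    rw [hη]
    exact lt_min (lt_min (by linarith) hφ0) (lt_min (by linarith) (lt_min one_pos (by linarith)))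
  have hη1 : η ≤ (Real.pi - l) / 4 := by
    rw [hη]
    exact (min_le_left _ _).trans (min_le_left _ _)
  have hη2 : η ≤ φ₀ := by
    rw [hη]
    exact (min_le_left _ _).trans (min_le_right _ _)
  have hη3 : η ≤ Real.pi / 4 := by
    rw [hη]
    exact (min_le_right _ _).trans (min_le_left _ _)
  have hη4 : η ≤ 1 := by
    rw [hη]
    exact (min_le_right _ _).trans ((min_le_right _ _).trans (min_le_left _ _))
  have hη5 : η ≤ D / 2 := by
    rw [hη]
    exact (min_le_right _ _).trans ((min_le_right _ _).trans (min_le_right _ _))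
  refine ⟨ev (θp + Real.pi / 2 - η), c, η, hc0, hη0, by linarith, fun φ hφ' => ⟨?_, ?_⟩,
    fun θ hθ hh => ?_, ?_⟩
  · exact hnear φ (hφ'.trans hη2)
  · rw [ip_w]
    have h3 := abs_le.1 hφ'
    exact Real.sin_nonneg_of_nonneg_of_le_pi (by linarith) (by linarith)
  · have hθβ : θ ≤ β := by
      by_contra hcon
      push Not at hcon
      have h3 := hA.off θ ⟨hcon, by linarith [hθ.2]⟩
      exact h3.ne hh
    rw [ip_w]
    obtain ⟨φ, hφe⟩ : ∃ φ, φ = θ - θp := ⟨_, rfl⟩
    rw [← hφe]
    have hφη : η ≤ φ := by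
      have := hθ.1
      linarith
    have hφl : φ ≤ l := by linarith
    rcases le_or_gt φ φ₀ with h3 | h3
    · have h4 := hnear φ (by rw [abs_of_nonneg (by linarith)]; exact h3)
      rw [max_eq_right (by linarith), mul_zero]
      exact Real.sin_pos_of_pos_of_lt_pi (by linarith) (by linarith)
    · have h4 : min (Real.sin φ₀) (Real.sin ((Real.pi + l) / 2)) ≤ Real.sin (η + φ) :=
        sin_ge hφ0.le (by linarith) (by linarith) (by linarith)
      rw [← hm] at h4
      have h5 : max (s - R * Real.cos φ) 0 ≤ s + R := by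
        refine max_le ?_ (by linarith)
        have h6 := Real.neg_one_le_cos φ
        nlinarith
      have h6 : c * max (s - R * Real.cos φ) 0 ≤ c * (s + R) :=
        mul_le_mul_of_nonneg_left h5 hc0.le
      linarith
  · have h3 := cost (p := p) (K := K) hη0 hη3 hz
    rw [← hD]
    refine h3.trans_lt ?_
    nlinarith

end Pool.Agent.H356.EL
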